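import Pool.Agent.Y924.UF.Stm3

/-! # Recursion on codes is primitive recursive (job 11484) -/

set_option autoImplicit false
namespace Pool.Agent.Y900.UF

/-- the list of the first `n` values -/
def lst (G : List ℕ → ℕ) : ℕ → List ℕ
  | 0 => []
  | n + 1 => lst G n ++ [G (lst G n)]

theorem lst_eq (G : List ℕ → ℕ) (n : ℕ) : lst G n = (List.range n).map fun k => G (lst G k) := by
  induction n with
  | zero => rfl
  | succ n ih =>
    rw [List.range_succ, List.map_append, ← ih]
    rfl

theorem lst_len (G : List ℕ → ℕ) (n : ℕ) : (lst G n).length = n := by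
  rw [lst_eq]; simp

theorem lst_getD (G : List ℕ → ℕ) (n k : ℕ) (h : k < n) :
    (lst G n).getD k 0 = G (lst G k) := by
  rw [lst_eq]
  simp [List.getD, h]

theorem lst_primrec (G : List ℕ → ℕ) (hG : Primrec G) : Primrec (lst G) := by
  have h : Primrec₂ fun (_ : ℕ) (q : ℕ × List ℕ) => q.2 ++ [G q.2] := by
    have h1 : Primrec fun x : ℕ × (ℕ × List ℕ) => x.2.2 := Primrec.snd.comp Primrec.snd
    have h2 : Primrec fun x : ℕ × (ℕ × List ℕ) => [G x.2.2] :=
      Primrec.list_cons.comp (hG.comp h1) (Primrec.const [])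
    exact (Primrec.list_append.comp h1 h2).to₂
  have h3 := Primrec.nat_rec' (f := fun n : ℕ => n) (g := fun _ : ℕ => ([] : List ℕ))
    Primrec.id (Primrec.const []) h
  refine h3.of_eq fun n => ?_
  induction n with
  | zero => rfl
  | succ n ih => 
    show _ = lst G n ++ [G (lst G n)]
    rw [← ih]

/-- one step of the recursion -/
def stp (g0 g1 g2 g3 g4 g7 : ℕ → ℕ) (l : List ℕ) : ℕ :=
  if l.length.unpair.1 = 0 then g0 l.length.unpair.2 else
  if l.length.unpair.1 = 1 then g1 l.length.unpair.2 else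
  if l.length.unpair.1 = 2 then g2 l.length.unpair.2 else
  if l.length.unpair.1 = 3 then g3 l.length.unpair.2 else
  if l.length.unpair.1 = 4 then g4 l.length.unpair.2 else
  if l.length.unpair.1 = 5 then Nat.pair 5 (l.getD l.length.unpair.2 0) else
  if l.length.unpair.1 = 6 then Nat.pair 6 (Nat.pair (l.getD l.length.unpair.2.unpair.1 0)
    (l.getD l.length.unpair.2.unpair.2 0)) else
  if l.length.unpair.1 = 7 then g7 (Nat.pair l.length.unpair.2.unpair.1
    (l.getD l.length.unpair.2.unpair.2 0)) else 0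

theorem stp_primrec {g0 g1 g2 g3 g4 g7 : ℕ → ℕ} (h0 : Primrec g0) (h1 : Primrec g1)
    (h2 : Primrec g2) (h3 : Primrec g3) (h4 : Primrec g4) (h7 : Primrec g7) :
    Primrec (stp g0 g1 g2 g3 g4 g7) := by
  have hl : Primrec fun l : List ℕ => l.length := Primrec.list_length
  have hu : Primrec fun l : List ℕ => l.length.unpair := Primrec.unpair.comp hl
  have ht : Primrec fun l : List ℕ => l.length.unpair.1 := Primrec.fst.comp hu
  have hm : Primrec fun l : List ℕ => l.length.unpair.2 := Primrec.snd.comp hu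
  have hmu : Primrec fun l : List ℕ => l.length.unpair.2.unpair := Primrec.unpair.comp hm
  have ha : Primrec fun l : List ℕ => l.length.unpair.2.unpair.1 := Primrec.fst.comp hmu
  have hb : Primrec fun l : List ℕ => l.length.unpair.2.unpair.2 := Primrec.snd.comp hmu
  have gm : Primrec fun l : List ℕ => l.getD l.length.unpair.2 0 :=
    (Primrec.list_getD 0).comp Primrec.id hm
  have ga : Primrec fun l : List ℕ => l.getD l.length.unpair.2.unpair.1 0 :=
    (Primrec.list_getD 0).comp Primrec.id ha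
  have gb : Primrec fun l : List ℕ => l.getD l.length.unpair.2.unpair.2 0 :=
    (Primrec.list_getD 0).comp Primrec.id hb
  have hc : ∀ k : ℕ, PrimrecPred fun l : List ℕ => l.length.unpair.1 = k := fun k =>
    Primrec.eq.comp ht (Primrec.const k)
  exact Primrec.ite (hc 0) (h0.comp hm) <| Primrec.ite (hc 1) (h1.comp hm) <|
    Primrec.ite (hc 2) (h2.comp hm) <| Primrec.ite (hc 3) (h3.comp hm) <|
    Primrec.ite (hc 4) (h4.comp hm) <|
    Primrec.ite (hc 5) (Primrec₂.natPair.comp (Primrec.const 5) gm) <|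
    Primrec.ite (hc 6) (Primrec₂.natPair.comp (Primrec.const 6)
      (Primrec₂.natPair.comp ga gb)) <|
    Primrec.ite (hc 7) (h7.comp (Primrec₂.natPair.comp ha gb)) (Primrec.const 0)

theorem lt_pair {t m : ℕ} (h : 0 < t) : m < Nat.pair t m := by
  unfold Nat.pair
  split_ifs with h1
  · nlinarith
  · nlinarith

theorem t_REC : Pool.Agent.Y924.UF.S_REC := by
  intro g0 g1 g2 g3 g4 g7 h0 h1 h2 h3 h4 h7
  set G := stp g0 g1 g2 g3 g4 g7 with hG
  have hP : Primrec G := stp_primrec h0 h1 h2 h3 h4 h7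
  have hv : ∀ n k : ℕ, k < n → (lst G n).getD k 0 = G (lst G k) := fun n k h => lst_getD G n k h
  refine ⟨fun n => G (lst G n), hP.comp (lst_primrec G hP), ?_, ?_, ?_, ?_, ?_, ?_, ?_, ?_⟩
  · intro m; simp [hG, stp, lst_len, Nat.unpair_pair]
  · intro m; simp [hG, stp, lst_len, Nat.unpair_pair]
  · intro m; simp [hG, stp, lst_len, Nat.unpair_pair]
  · intro m; simp [hG, stp, lst_len, Nat.unpair_pair]
  · intro m; simp [hG, stp, lst_len, Nat.unpair_pair]
  · intro m
    have e := hv (Nat.pair 5 m) m (lt_pair (by decide))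
    have : G (lst G (Nat.pair 5 m)) = Nat.pair 5 ((lst G (Nat.pair 5 m)).getD m 0) := by
      conv_lhs => rw [hG, stp, ← hG]
      rw [lst_len, Nat.unpair_pair]
      rfl
    show G (lst G (Nat.pair 5 m)) = Nat.pair 5 (G (lst G m))
    rw [this, e]
  · intro a b
    have hab : Nat.pair a b < Nat.pair 6 (Nat.pair a b) := lt_pair (by decide)
    have ea := hv (Nat.pair 6 (Nat.pair a b)) a ((Nat.left_le_pair a b).trans_lt hab)
    have eb := hv (Nat.pair 6 (Nat.pair a b)) b ((Nat.right_le_pair a b).trans_lt hab)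
    have : G (lst G (Nat.pair 6 (Nat.pair a b))) = Nat.pair 6 (Nat.pair
        ((lst G (Nat.pair 6 (Nat.pair a b))).getD a 0)
        ((lst G (Nat.pair 6 (Nat.pair a b))).getD b 0)) := by
      conv_lhs => rw [hG, stp, ← hG]
      rw [lst_len, Nat.unpair_pair]
      simp only [Nat.unpair_pair]
      rfl
    show G (lst G (Nat.pair 6 (Nat.pair a b))) = Nat.pair 6 (Nat.pair (G (lst G a)) (G (lst G b)))
    rw [this, ea, eb]
  · intro i m
    have him : Nat.pair i m < Nat.pair 7 (Nat.pair i m) := lt_pair (by decide)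
    have em := hv (Nat.pair 7 (Nat.pair i m)) m ((Nat.right_le_pair i m).trans_lt him)
    have : G (lst G (Nat.pair 7 (Nat.pair i m))) = g7 (Nat.pair i
        ((lst G (Nat.pair 7 (Nat.pair i m))).getD m 0)) := by
      conv_lhs => rw [hG, stp, ← hG]
      rw [lst_len, Nat.unpair_pair]
      simp only [Nat.unpair_pair]
      rfl
    show G (lst G (Nat.pair 7 (Nat.pair i m))) = g7 (Nat.pair i (G (lst G m)))
    rw [this, em]

end Pool.Agent.Y900.UF
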